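import Pool.Agent.W606.SN.Stm

set_option autoImplicit false

namespace Pool.Agent.W473.SN
open Pool.Agent.W606.SN

theorem om_symm {F T : Type} (L A : F × T → Prop) (pos : F × T → ℕ) (y : ℕ) (p q : F × T) :
    om L A pos y p q = om L A pos y q p := by
  unfold om
  congr 1
  apply propext
  tauto

theorem main (hpot : S_POT) (homc : S_OMC) (hpar2 : S_PAR2) : S_PAR3 := by
  intro F T _ GF GT hF hpF hpT W L A pos y z z' hsub hno hconn hz hz' v hv v' hv' c hc
  obtain ⟨χ, hχ⟩ := hpot F T GF GT hF hpF hpT W (om L A pos y) (om_symm L A pos y)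
    (homc F T GF GT W L A pos y hsub hno)
  have key : ∀ w ∈ W, IsPar GF L A pos y z z' w (∑ u, (z w u + z' w u) * χ (u, w)) := by
    intro w hw
    exact ⟨fun u => χ (u, w), fun u u' h => hχ (u, w) (u', w) hw hw ⟨Or.inr h, Or.inl rfl⟩, rfl⟩
  have eq_of : ∀ a b : ZMod 2, a + b = 0 → a = b := by decide
  have step : ∀ w w' : T, w ∈ W → w' ∈ W → GT.Adj w w' →
      ∑ u, (z w u + z' w u) * χ (u, w) = ∑ u, (z w' u + z' w' u) * χ (u, w') := by
    intro w w' hw hw' hadj
    have mem : ∀ p : F × T, (p.2 = w ∨ p.2 = w') → p.2 ∈ W := by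
      intro p hp
      rcases hp with hp | hp
      · rw [hp]; exact hw
      · rw [hp]; exact hw'
    have h1 : ∑ u, z w u * χ (u, w) = ∑ u, z w' u * χ (u, w') := by
      refine hz.comp w hw w' hw' hadj χ ?_
      intro p q hp hq hr hAp hAq
      apply eq_of
      rw [hχ p q (mem p hp) (mem q hq) hr]
      unfold om
      rw [if_neg]
      rintro ⟨h, -⟩
      exact (h.1 hAp) hAq
    have h2 : ∑ u, z' w u * χ (u, w) = ∑ u, z' w' u * χ (u, w') := by
      refine hz'.comp w hw w' hw' hadj χ ?_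
      intro p q hp hq hr hAp hAq
      apply eq_of
      rw [hχ p q (mem p hp) (mem q hq) hr]
      unfold om
      rw [if_neg]
      rintro ⟨h, -⟩
      exact hAp (h.2 hAq)
    simp only [add_mul, Finset.sum_add_distrib]
    rw [h1, h2]
  have path : ∀ w, Relation.ReflTransGen (fun a b => a ∈ W ∧ b ∈ W ∧ GT.Adj a b) v w →
      ∑ u, (z v u + z' v u) * χ (u, v) = ∑ u, (z w u + z' w u) * χ (u, w) := by
    intro w hw
    induction hw with
    | refl => rfl
    | tail _ hbc ih => exact ih.trans (step _ _ hbc.1 hbc.2.1 hbc.2.2)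
  have e1 : c = ∑ u, (z v u + z' v u) * χ (u, v) :=
    hpar2 F T GF hF L A pos y z z' v (hz.one v hv) (hz'.one v hv) c _ hc (key v hv)
  rw [e1, path v' (hconn v hv v' hv')]
  exact key v' hv'

end Pool.Agent.W473.SN
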